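import Pool.Agent.U485.RF.Tools

/-!
# Montgomery's moment conjecture for randomly perturbed integers

Let `θ 0, θ 1, …` be independent and uniform on `[0, 1]`. For almost every `θ` the polynomials
`D(t) = ∑_{N ≤ n ≤ 2N} b_n (n + θ_n)^{it}` satisfy all of Q1, and even a form of it from `ℓ²` to `ℓ^q`, for all
complex coefficients, all well-spaced points and all exponents `q ≥ 2`, with powers of the logarithm.

The proof is the mean square theorem `Pool.Agent.U160.RF.ae_lsum` of helper160 (hand-in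
`MP_a93a41_nt.RandomFrequencies`), applied to the points with a large value.
-/

set_option autoImplicit false

namespace Pool.Agent.Results.MP_2a1f0e_nt.RandomFrequencies

open MeasureTheory Finset Filter Pool.Agent.U160.RF Pool.Agent.U485.RF

/-- **Montgomery's moment conjecture holds for almost every perturbation of the integers.** -/
theorem result :
    ∀ᵐ θ : ℕ → ℝ ∂(Measure.infinitePi fun _ : ℕ => (volume : Measure ℝ).restrict (Set.Icc 0 1)),
      (∀ q A ε : ℝ, 2 ≤ q → 1 ≤ A → 0 < ε → ∃ K : ℝ, 0 < K ∧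
        ∀ (N T : ℕ) (b : ℕ → ℂ),
          1 ≤ N → N ≤ T → (T : ℝ) ≤ (N : ℝ) ^ A →
          (∀ n ∈ Finset.Icc N (2 * N), ‖b n‖ ≤ 1) →
          ∑ t ∈ Finset.Icc 1 T,
            ‖∑ n ∈ Finset.Icc N (2 * N), b n * ((n + θ n : ℝ) : ℂ) ^ ((t : ℂ) * Complex.I)‖ ^ q ≤
            K * (N : ℝ) ^ ε * ((N : ℝ) ^ q + T * (N : ℝ) ^ (q / 2))) ∧
      (∀ B : ℕ, ∃ C : ℝ, 0 < C ∧ ∀ (q : ℝ) (N : ℕ) (t₀ : ℝ) (b : ℕ → ℂ) (W : Finset ℝ),
          2 ≤ q → 1 ≤ N →
          (∀ t ∈ W, t₀ ≤ t ∧ t ≤ t₀ + (N : ℝ) ^ B) →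
          (∀ t ∈ W, ∀ u ∈ W, t ≠ u → 1 ≤ |t - u|) →
          ∑ t ∈ W, ‖∑ n ∈ Finset.Icc N (2 * N), b n * ((n + θ n : ℝ) : ℂ) ^ ((t : ℂ) * Complex.I)‖ ^ q ≤
            C ^ q * (Real.log (2 * N) ^ 5 * (N : ℝ) ^ (q / 2) + (Real.log (2 * N) ^ 5) ^ (q / 2) * W.card) *
              (∑ n ∈ Finset.Icc N (2 * N), ‖b n‖ ^ 2) ^ (q / 2)) := by
  rw [show (Measure.infinitePi fun _ : ℕ => (volume : Measure ℝ).restrict (Set.Icc 0 1)) = mu from rfl]
  filter_upwards [ae_MS] with θ hθ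
  obtain ⟨h0, h⟩ := hθ
  refine ⟨?_, ?_⟩
  · intro q A ε hq hA hε
    obtain ⟨K, hK, h1⟩ := moment_bdd h0 h q A ε hq hε
    refine ⟨K, hK, fun N T b hN hNT hTA hb => ?_⟩
    have h2 := h1 N T b hN hNT hTA hb
    unfold P at h2
    push_cast at h2 ⊢
    exact h2
  · intro B
    obtain ⟨C, hC, hMS⟩ := h B
    refine ⟨2 * C, by positivity, fun q N t₀ b W hq hN hW hsep => ?_⟩
    have h1 := moment h0 hC hMS N t₀ q b W hN hq hW hsep
    have hN1 : (1 : ℝ) ≤ N := by exact_mod_cast hN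
    have hL0 : 0 ≤ Real.log (2 * N) := Real.log_nonneg (by linarith)
    have hX0 := X_nonneg b N
    have h2 : (2 * C) ^ (q / 2) ≤ (2 * C) ^ q :=
      Real.rpow_le_rpow_of_exponent_le (by linarith) (by linarith)
    calc ∑ t ∈ W, ‖∑ n ∈ Finset.Icc N (2 * N), b n * ((n + θ n : ℝ) : ℂ) ^ ((t : ℂ) * Complex.I)‖ ^ q
        ≤ (2 * C) ^ (q / 2) * ((N : ℝ) ^ (q / 2) * Real.log (2 * N) ^ 5 +
            W.card * (Real.log (2 * N) ^ 5) ^ (q / 2)) * X b N ^ (q / 2) := h1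
      _ ≤ (2 * C) ^ q * ((N : ℝ) ^ (q / 2) * Real.log (2 * N) ^ 5 +
            W.card * (Real.log (2 * N) ^ 5) ^ (q / 2)) * X b N ^ (q / 2) := by
          apply mul_le_mul_of_nonneg_right _ (by positivity)
          exact mul_le_mul_of_nonneg_right h2 (by positivity)
      _ = _ := by
          unfold X
          ring

end Pool.Agent.Results.MP_2a1f0e_nt.RandomFrequencies
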