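import Pool.Agent.U623.TW.Fin

set_option autoImplicit false

/-!
# Montgomery's inequality for almost all slow additive twists

Q1 asks for `∑_{1 ≤ t ≤ T} |D(t)|^q ≤ C N^ε (N^q + T N^(q/2))`, `D(t) = ∑_{N ≤ n ≤ 2N} b_n n^{it}`,
`|b_n| ≤ 1`, for all `q ≥ 2` and `N ≤ T ≤ N^A`. Here the coefficients are ARBITRARY and they are
twisted by a linear phase: `D_β(t) = ∑_{N ≤ n ≤ 2N} b_n e(β n) n^{it}`. In every window
`[β₀, β₀ + δ]`, for all `β` outside a set of measure at most `C N^(-ε/4) δ`, the inequality of Q1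
holds for `D_β`, for ALL `T` with `max(N, N/δ) ≤ T ≤ N²` and ALL real `q > 0` at once, and for
`q ≤ 4` even without the term `N^q`. Already the windows of length `δ = N/T` are allowed.

Proof: the fourth moment of `D_β(t)` over `β ∈ [β₀, β₀ + δ]`, `t ≤ T` counts the solutions of
`a + b = c + d + O(1/δ)`, `a b = c d + O(N²/T)`. With `x = c - a`, `y = c - b`, `S = a + b - c - d`
one has `a b - c d = x y + S c`, and the weighted count is `O(N^ε) δ N² T` by an elementary divisor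
argument (`Pool/Agent/U623/TW/Count.lean`).
-/

namespace Pool.Agent.Results.MP_2a1f0e_nt.SlowTwists

open Finset MeasureTheory

/-- The Dirichlet polynomial `D(t) = ∑_{N ≤ n ≤ 2N} b_n n^{it}`. -/
noncomputable def D (N : ℕ) (b : ℕ → ℂ) (t : ℝ) : ℂ :=
  ∑ n ∈ Icc N (2 * N), b n * Complex.exp (Complex.I * (t : ℂ) * ((Real.log (n : ℝ) : ℝ) : ℂ))

/-- The coefficients `b_n e(β n)`. -/
noncomputable def twist (β : ℝ) (b : ℕ → ℂ) (n : ℕ) : ℂ :=
  b n * Complex.exp (2 * Real.pi * Complex.I * β * n)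

/-- The inequality of Q1, for all exponents `q > 0`, for the lengths `T` with
`max(N, N/δ) ≤ T ≤ N²`; for `q ≤ 4` without the term `N^q`. -/
def Good (N : ℕ) (b : ℕ → ℂ) (C ε δ : ℝ) : Prop :=
  ∀ T : ℕ, N ≤ T → (N : ℝ) ≤ δ * T → (T : ℝ) ≤ (N : ℝ) ^ 2 → ∀ q : ℝ, 0 < q →
    (∑ t ∈ Icc 1 T, ‖D N b (t : ℝ)‖ ^ q ≤
      2 ^ q * C * (N : ℝ) ^ ε * ((N : ℝ) ^ q + (N : ℝ) ^ (q / 2) * T)) ∧
    (q ≤ 4 → ∑ t ∈ Icc 1 T, ‖D N b (t : ℝ)‖ ^ q ≤ C * (N : ℝ) ^ ε * ((N : ℝ) ^ (q / 2) * T))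

theorem D_twist (N : ℕ) (b : ℕ → ℂ) (β t : ℝ) :
    D N (twist β b) t = Pool.Agent.U623.TW.DT N b β t := by
  unfold D Pool.Agent.U623.TW.DT twist
  refine sum_congr rfl fun n _ => ?_
  rw [mul_assoc, ← Complex.exp_add]
  congr 2
  push_cast
  ring

theorem result (ε : ℝ) (hε : 0 < ε) :
    ∃ C : ℝ, 0 < C ∧ ∀ N : ℕ, 1 ≤ N → ∀ b : ℕ → ℂ, (∀ n, ‖b n‖ ≤ 1) → ∀ β₀ δ : ℝ, 0 < δ →
      volume {β | β ∈ Set.Icc β₀ (β₀ + δ) ∧ ¬ Good N (twist β b) C ε δ} ≤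
        ENNReal.ofReal (C * (N : ℝ) ^ (-(ε / 4)) * δ) := by
  have hC := Pool.Agent.U623.TW.C0_ge ε hε
  refine ⟨max (Pool.Agent.U623.TW.C0 ε) (2 + 6 / ε), lt_max_of_lt_left (by linarith), ?_⟩
  intro N hN b hb β₀ δ hδ
  have hN0 : (0 : ℝ) < N := by exact_mod_cast hN
  have hN1 : (1 : ℝ) ≤ N := by exact_mod_cast hN
  set C := max (Pool.Agent.U623.TW.C0 ε) (2 + 6 / ε) with hCdef
  have hC1 : Pool.Agent.U623.TW.C0 ε ≤ C := le_max_left _ _
  have hC2 : 2 + 6 / ε ≤ C := le_max_right _ _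
  have hC3 : 1 ≤ C := hC.trans hC1
  refine (measure_mono ?_).trans ((Pool.Agent.U623.TW.simult N hN b hb β₀ δ ε hδ hε).trans
    (ENNReal.ofReal_le_ofReal (by gcongr)))
  rintro β ⟨hβ, hbad⟩
  refine ⟨hβ, fun hgood => hbad ?_⟩
  intro T h1 h2 h3 q hq
  have hp : (1 : ℝ) ≤ (N : ℝ) ^ ε := Real.one_le_rpow hN1 hε.le
  have hL : 1 ≤ C * (N : ℝ) ^ ε := by nlinarith
  have h4 := hgood T h1 h2 h3
  have h5 : ∑ t ∈ Icc 1 T, ‖D N (twist β b) (t : ℝ)‖ ^ 4 ≤ C * (N : ℝ) ^ ε * (N ^ 2 * T) := by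
    simp only [D_twist]
    refine h4.trans ?_
    gcongr
  have h6 := Pool.Agent.U623.TW.all_q N T hN (hN.trans h1) h3 (fun t => ‖D N (twist β b) (t : ℝ)‖)
    (fun t => norm_nonneg _) (fun t => by
      simp only [D_twist]; exact Pool.Agent.U623.TW.DT_le N hN b hb β t) (C * (N : ℝ) ^ ε) hL h5 q hq
  have h2q : (1 : ℝ) ≤ 2 ^ q := Real.one_le_rpow (by norm_num) hq.le
  have hNq : (0 : ℝ) < (N : ℝ) ^ q := Real.rpow_pos_of_pos hN0 _
  have hNq2 : (0 : ℝ) < (N : ℝ) ^ (q / 2) := Real.rpow_pos_of_pos hN0 _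
  have hT0 : (0 : ℝ) ≤ T := by positivity
  have hCN : 0 < C * (N : ℝ) ^ ε := by linarith
  refine ⟨?_, ?_⟩
  · by_cases h : q ≤ 4
    · rw [if_pos h] at h6
      refine h6.trans ?_
      calc C * (N : ℝ) ^ ε * (T * (N : ℝ) ^ (q / 2)) ≤
            1 * (C * (N : ℝ) ^ ε * ((N : ℝ) ^ q + (N : ℝ) ^ (q / 2) * T)) := by
            rw [one_mul]
            refine mul_le_mul_of_nonneg_left ?_ hCN.le
            nlinarith
        _ ≤ 2 ^ q * (C * (N : ℝ) ^ ε * ((N : ℝ) ^ q + (N : ℝ) ^ (q / 2) * T)) := by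
            refine mul_le_mul_of_nonneg_right h2q ?_
            positivity
        _ = _ := by ring
    · rw [if_neg h] at h6
      refine h6.trans ?_
      have e1 : (2 : ℝ) ^ (q - 4) ≤ 2 ^ q := Real.rpow_le_rpow_of_exponent_le (by norm_num) (by linarith)
      calc (2 : ℝ) ^ (q - 4) * (C * (N : ℝ) ^ ε * (N : ℝ) ^ q) ≤
            2 ^ q * (C * (N : ℝ) ^ ε * ((N : ℝ) ^ q + (N : ℝ) ^ (q / 2) * T)) := by
            refine mul_le_mul e1 ?_ (by positivity) (by positivity)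
            refine mul_le_mul_of_nonneg_left ?_ hCN.le
            have : 0 ≤ (N : ℝ) ^ (q / 2) * T := by positivity
            linarith
        _ = _ := by ring
  · intro h
    rw [if_pos h] at h6
    refine h6.trans (le_of_eq ?_)
    ring

end Pool.Agent.Results.MP_2a1f0e_nt.SlowTwists
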